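import Pool.Graph.R_seed8.H223R3.Kalai.Basic

/-!
# Directed, asymmetric and weighted form of Kalai's bound for tight trees: the potential

`r`-tuples are functions `Fin r → V`.  A facet of type `k` is an `r`-tuple whose coordinate `k` is
irrelevant.  The averages `E`, the failure indicators `Fail`, and the lemmas `glue`, `E_up`,
`E_down`, `glueF`, `extractF` are those of the library (`ES903`, `H223R3.Kalai`).
-/

set_option autoImplicit false

namespace Pool.Agent.H632.DK

open Finset ES903 H223R3.Kalai

/-- rooted coloured tight trees (the colour `k` of the root facet is a parameter of the functions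
below); `graft v C B`: the tuple `update (root B) k v` is attached at the root facet of `B`, and
the tree `C j`, `j ≠ k`, is attached at its facet of type `j`. -/
inductive CT (W : Type*) (r : ℕ) where
  | node : (Fin r → W) → CT W r
  | graft : W → (Fin r → CT W r) → CT W r → CT W r

/-- `p j` planted at the facet `u` of type `k` -/
def Plant {V : Type*} [DecidableEq V] {r : ℕ} (D : Finset (Fin r → V)) (k : Fin r)
    (p : Fin r → (Fin r → V) → Finset V → Prop) (u : Fin r → V) (S : Finset V) : Prop :=
  ∃ w ∈ S, Function.update u k w ∈ D ∧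
    compF r (fun j S' => j = k ∨ p j (Function.update u k w) (S'.erase (u j))) S

namespace CT

variable {W : Type*} {r : ℕ}

def root : CT W r → (Fin r → W)
  | node a => a
  | graft _ _ B => root B

/-- the number of new vertices of colour `c` -/
def cnt (c : Fin r) : CT W r → Fin r → ℕ
  | node _, _ => 0
  | graft _ C B, k => (∑ j, if j = k then 0 else cnt c (C j) j) + cnt c B k +
      (if c = k then 1 else 0)

def edges [DecidableEq W] : CT W r → Fin r → Finset (Fin r → W)
  | node _, _ => ∅
  | graft v C B, k => insert (Function.update (root B) k v)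
      ((univ.biUnion fun j => if j = k then ∅ else edges (C j) j) ∪ edges B k)

def nv [DecidableEq W] : CT W r → Fin r → Finset W
  | node _, _ => ∅
  | graft v C B, k => insert v ((univ.biUnion fun j => if j = k then ∅ else nv (C j) j) ∪ nv B k)

/-- `t` embeds in `D` with root facet of type `k` at `u` and the other vertices in `S` -/
def Emb {V : Type*} [DecidableEq V] (D : Finset (Fin r → V)) :
    CT W r → Fin r → (Fin r → V) → Finset V → Prop
  | node _, _, _, _ => True
  | graft _ C B, k, u, S => comp (Plant D k (fun j => Emb D (C j) j) u) (Emb D B k u) S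

end CT

section ineq

variable {V : Type*} [DecidableEq V] {r : ℕ}

theorem Plant_mono (D : Finset (Fin r → V)) (k : Fin r)
    (p : Fin r → (Fin r → V) → Finset V → Prop)
    (u : Fin r → V) (S T : Finset V) (h : S ⊆ T) (hS : Plant D k p u S) : Plant D k p u T := by
  obtain ⟨w, h1, h2, h3⟩ := hS
  exact ⟨w, h h1, h2, compF_mono _ _ _ _ h h3⟩

theorem Emb_mono {W : Type*} (D : Finset (Fin r → V)) (t : CT W r) : ∀ (k : Fin r)
    (u : Fin r → V) (S T : Finset V), S ⊆ T → t.Emb D k u S → t.Emb D k u T := by
  induction t with
  | node a => intro k u S T _ _; trivial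
  | graft v C B _ ihB =>
    intro k u S T h hS
    exact RT.comp_mono (ihB k u) S T h hS

/-- the value at the coordinate `k` of the root is irrelevant -/
theorem Emb_update {W : Type*} (D : Finset (Fin r → V)) (t : CT W r) : ∀ (k : Fin r)
    (u : Fin r → V) (w : V) (S : Finset V),
    t.Emb D k (Function.update u k w) S ↔ t.Emb D k u S := by
  induction t with
  | node a => intro k u w S; exact Iff.rfl
  | graft v C B _ ihB =>
    intro k u w S
    have h1 : Plant D k (fun j => (C j).Emb D j) (Function.update u k w) =
        Plant D k (fun j => (C j).Emb D j) u := by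
      funext S
      apply propext
      unfold Plant
      have h2 : ∀ w', Function.update (Function.update u k w) k w' = Function.update u k w' :=
        fun w' => Function.update_idem w w' u
      have h3 : ∀ w', (fun (j : Fin r) (S' : Finset V) => j = k ∨
            (C j).Emb D j (Function.update u k w') (S'.erase (Function.update u k w j))) =
          (fun (j : Fin r) (S' : Finset V) => j = k ∨
            (C j).Emb D j (Function.update u k w') (S'.erase (u j))) := by
        intro w'
        funext j S'
        by_cases hj : j = k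
        · simp [hj]
        · rw [Function.update_of_ne hj]
      constructor
      · rintro ⟨w', a1, a2, a3⟩
        refine ⟨w', a1, ?_, ?_⟩
        · rw [h2] at a2; exact a2
        · rw [h2, h3] at a3; exact a3
      · rintro ⟨w', a1, a2, a3⟩
        refine ⟨w', a1, ?_, ?_⟩
        · rw [h2]; exact a2
        · rw [h2, h3]; exact a3
    have h4 : (fun S => B.Emb D k (Function.update u k w) S) = (fun S => B.Emb D k u S) := by
      funext S
      exact propext (ihB k u w S)
    show comp (Plant D k (fun j => (C j).Emb D j) (Function.update u k w))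
        (fun S => B.Emb D k (Function.update u k w) S) S ↔
      comp (Plant D k (fun j => (C j).Emb D j) u) (fun S => B.Emb D k u S) S
    rw [h1, h4]

variable [Fintype V]

/-- every tuple arises from `|V|` pairs `(u, w)` -/
theorem sum_update (k : Fin r) (G : (Fin r → V) → ℝ) :
    ∑ u : Fin r → V, ∑ w : V, G (Function.update u k w) =
      (Fintype.card V : ℝ) * ∑ e : Fin r → V, G e := by
  have h1 : ∑ u : Fin r → V, ∑ w : V, G (Function.update u k w) =
      ∑ e : Fin r → V, ∑ _w : V, G e := by
    rw [← Finset.sum_product', ← Finset.sum_product']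
    refine Finset.sum_nbij' (fun x => (Function.update x.1 k x.2, x.1 k))
      (fun x => (Function.update x.1 k x.2, x.1 k)) ?_ ?_ ?_ ?_ ?_
    · intro x _; simp
    · intro x _; simp
    · rintro ⟨u, w⟩ _; simp
    · rintro ⟨u, w⟩ _; simp
    · rintro ⟨u, w⟩ _; rfl
  rw [h1, Finset.mul_sum]
  refine Finset.sum_congr rfl (fun e _ => ?_)
  rw [Finset.sum_const, nsmul_eq_mul, Finset.card_univ]

/-- the average of a failure indicator, as a real number -/
noncomputable def A (f : Finset V → Prop) : ℝ := ((E univ (Fail f) : ℚ) : ℝ)

theorem A_nonneg (f : Finset V → Prop) : 0 ≤ A f := by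
  unfold A
  exact_mod_cast E_nonneg univ (Fail_nonneg f)

/-- weights `c` supported in `D` with majorants `m k` on the facets of type `k` -/
structure Wt (D : Finset (Fin r → V)) where
  c : (Fin r → V) → ℝ
  m : Fin r → (Fin r → V) → ℝ
  c_nonneg : ∀ x, 0 ≤ c x
  supp : ∀ x, c x ≠ 0 → x ∈ D
  m_update : ∀ k x w, m k (Function.update x k w) = m k x
  c_le : ∀ k x, c x ≤ m k x

variable {D : Finset (Fin r → V)}

theorem Wt.m_nonneg (M : Wt D) (k : Fin r) (x : Fin r → V) : 0 ≤ M.m k x :=
  (M.c_nonneg x).trans (M.c_le k x)

/-- the weight of the facet `u` of type `k` -/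
noncomputable def Wt.wt (M : Wt D) (k : Fin r) (u : Fin r → V) : ℝ :=
  ∑ w, M.c (Function.update u k w) + M.m k u

theorem Wt.wt_nonneg (M : Wt D) (k : Fin r) (u : Fin r → V) : 0 ≤ M.wt k u :=
  add_nonneg (Finset.sum_nonneg fun _ _ => M.c_nonneg _) (M.m_nonneg k u)

theorem up_bound (M : Wt D) (k : Fin r) (u : Fin r → V) (f : Finset V → Prop)
    (hf : ∀ S T, S ⊆ T → f S → f T) :
    M.wt k u * A f - M.m k u * ((Fintype.card V : ℝ) + 1) ≤
      ∑ w, M.c (Function.update u k w) * A (fun S => f (insert w S)) := by
  have hmono : ∀ w, 0 ≤ A f - A (fun S => f (insert w S)) := by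
    intro w
    rw [sub_nonneg]
    unfold A
    have : E univ (Fail (fun S => f (insert w S))) ≤ E univ (Fail f) := by
      apply E_mono
      intro S _
      apply Fail_mono
      exact hf S _ (Finset.subset_insert _ _)
    exact_mod_cast this
  have e1 : ∑ w, (A f - A (fun S => f (insert w S))) ≤ (Fintype.card V : ℝ) + 1 - A f := by
    have h := E_up (univ : Finset V) (Fail f)
    have h2 : ∑ w, (A f - A (fun S => f (insert w S))) =
        ((∑ v ∈ (univ : Finset V), (E univ (Fail f) -
          E univ (fun S => Fail f (insert v S))) : ℚ) : ℝ) := by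
      push_cast
      rfl
    rw [h2, h]
    have h3 := Fail_le_one f ∅
    have h4 : (0:ℚ) ≤ ((univ : Finset V).card : ℚ) + 1 := by positivity
    have h5 : (((univ : Finset V).card : ℚ) + 1) * Fail f ∅ - E univ (Fail f) ≤
        ((univ : Finset V).card : ℚ) + 1 - E univ (Fail f) := by nlinarith
    have h6 : (((((univ : Finset V).card : ℚ) + 1) * Fail f ∅ - E univ (Fail f) : ℚ) : ℝ) ≤
        ((((univ : Finset V).card : ℚ) + 1 - E univ (Fail f) : ℚ) : ℝ) := by exact_mod_cast h5
    refine h6.trans ?_
    unfold A
    push_cast
    rw [Finset.card_univ]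
  have e2 : ∑ w, M.c (Function.update u k w) * (A f - A (fun S => f (insert w S))) ≤
      M.m k u * ∑ w, (A f - A (fun S => f (insert w S))) := by
    rw [Finset.mul_sum]
    apply Finset.sum_le_sum
    intro w _
    apply mul_le_mul_of_nonneg_right _ (hmono w)
    rw [← M.m_update k u w]
    exact M.c_le k _
  have e3 : M.m k u * ∑ w, (A f - A (fun S => f (insert w S))) ≤
      M.m k u * ((Fintype.card V : ℝ) + 1 - A f) :=
    mul_le_mul_of_nonneg_left e1 (M.m_nonneg k u)
  have e4 : ∑ w, M.c (Function.update u k w) * (A f - A (fun S => f (insert w S))) =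
      (∑ w, M.c (Function.update u k w)) * A f -
        ∑ w, M.c (Function.update u k w) * A (fun S => f (insert w S)) := by
    rw [Finset.sum_mul, ← Finset.sum_sub_distrib]
    exact Finset.sum_congr rfl (fun w _ => by ring)
  unfold Wt.wt
  nlinarith [e2, e3, e4]

theorem down_bound (M : Wt D) (k : Fin r) (u : Fin r → V) (f : Finset V → Prop)
    (hf : ∀ S T, S ⊆ T → f S → f T) :
    ∑ w, M.c (Function.update u k w) * A (fun S => f (S.erase w)) ≤ M.wt k u * A f := by
  have hmono : ∀ w, 0 ≤ A (fun S => f (S.erase w)) - A f := by
    intro w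
    rw [sub_nonneg]
    unfold A
    have : E univ (Fail f) ≤ E univ (Fail (fun S => f (S.erase w))) := by
      apply E_mono
      intro S _
      apply Fail_mono
      exact hf _ _ (Finset.erase_subset _ _)
    exact_mod_cast this
  have e1 : ∑ w, (A (fun S => f (S.erase w)) - A f) ≤ A f := by
    have h := E_down (univ : Finset V) (Fail f)
    have h2 : ∑ w, (A (fun S => f (S.erase w)) - A f) =
        ((∑ v ∈ (univ : Finset V), (E univ (fun S => Fail f (S.erase v)) -
          E univ (Fail f)) : ℚ) : ℝ) := by
      push_cast
      rfl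
    rw [h2, h]
    have h3 := Fail_nonneg f univ
    have h4 : (0:ℚ) ≤ ((univ : Finset V).card : ℚ) + 1 := by positivity
    have h5 : E univ (Fail f) - (((univ : Finset V).card : ℚ) + 1) * Fail f univ ≤
        E univ (Fail f) := by nlinarith [mul_nonneg h4 h3]
    have h6 : ((E univ (Fail f) - (((univ : Finset V).card : ℚ) + 1) * Fail f univ : ℚ) : ℝ) ≤
        ((E univ (Fail f) : ℚ) : ℝ) := by exact_mod_cast h5
    exact h6
  have e2 : ∑ w, M.c (Function.update u k w) * (A (fun S => f (S.erase w)) - A f) ≤
      M.m k u * ∑ w, (A (fun S => f (S.erase w)) - A f) := by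
    rw [Finset.mul_sum]
    apply Finset.sum_le_sum
    intro w _
    apply mul_le_mul_of_nonneg_right _ (hmono w)
    rw [← M.m_update k u w]
    exact M.c_le k _
  have e3 : M.m k u * ∑ w, (A (fun S => f (S.erase w)) - A f) ≤ M.m k u * A f :=
    mul_le_mul_of_nonneg_left e1 (M.m_nonneg k u)
  have e4 : ∑ w, M.c (Function.update u k w) * (A (fun S => f (S.erase w)) - A f) =
      ∑ w, M.c (Function.update u k w) * A (fun S => f (S.erase w)) -
        (∑ w, M.c (Function.update u k w)) * A f := by
    rw [Finset.sum_mul, ← Finset.sum_sub_distrib]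
    exact Finset.sum_congr rfl (fun w _ => by ring)
  unfold Wt.wt
  nlinarith [e2, e3, e4]

end ineq

end Pool.Agent.H632.DK
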