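import Pool.Agent.H632.DK.Basic

/-!
# Directed Kalai: the cost of a rooted coloured tree
-/

set_option autoImplicit false

namespace Pool.Agent.H632.DK

open Finset ES903 H223R3.Kalai

variable {V : Type*} [DecidableEq V] {r : ℕ} [Fintype V] {D : Finset (Fin r → V)}

theorem A_mono {f g : Finset V → Prop} (h : ∀ S, f S → g S) : A g ≤ A f := by
  unfold A
  have : E univ (Fail g) ≤ E univ (Fail f) := E_mono univ (fun S _ => Fail_mono (h S))
  exact_mod_cast this

theorem A_true : A (fun _ : Finset V => True) = 0 := by
  unfold A
  simp [E, Fail]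

theorem A_false {f : Finset V → Prop} (h : ∀ S, ¬ f S) : A f = (Fintype.card V : ℝ) + 1 := by
  unfold A
  have h1 : Fail f = fun _ => 1 := by
    funext S; simp [Fail, h S]
  rw [h1, E_one, Finset.card_univ]
  push_cast
  rfl

theorem A_comp (f g : Finset V → Prop) : A (comp f g) ≤ A f + A g := by
  unfold A
  exact_mod_cast glue univ f g

theorem A_compF (d : ℕ) (f : Fin d → Finset V → Prop) : A (compF d f) ≤ ∑ i, A (f i) := by
  unfold A
  have := glueF (univ : Finset V) d f
  exact_mod_cast this

/-- the total mass of the majorant on the facets of type `k` -/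
noncomputable def Wt.mass (M : Wt D) (k : Fin r) : ℝ := ∑ u, M.m k u

theorem Wt.mass_nonneg (M : Wt D) (k : Fin r) : 0 ≤ M.mass k :=
  Finset.sum_nonneg fun _ _ => M.m_nonneg k _

theorem plantD (M : Wt D) (k : Fin r) (p : Fin r → (Fin r → V) → Finset V → Prop)
    (hp : ∀ i u S T, S ⊆ T → p i u S → p i u T)
    (hu : ∀ i u w, p i (Function.update u i w) = p i u) :
    ∑ u, M.wt k u * A (Plant D k p u) ≤
      ∑ j, (if j = k then 0 else ∑ u, M.wt j u * A (p j u)) +
        ((Fintype.card V : ℝ) + 1) * M.mass k := by
  have h1 : ∑ u, M.wt k u * A (Plant D k p u) - ((Fintype.card V : ℝ) + 1) * M.mass k ≤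
      ∑ u, ∑ w, M.c (Function.update u k w) * A (fun S => Plant D k p u (insert w S)) := by
    unfold Wt.mass
    rw [Finset.mul_sum, ← Finset.sum_sub_distrib]
    apply Finset.sum_le_sum
    intro u _
    have := up_bound M k u (Plant D k p u) (fun S T h => Plant_mono D k p u S T h)
    linarith
  set G : Fin r → (Fin r → V) → ℝ := fun j x =>
    if j = k then 0 else A (fun S' => p j x (S'.erase (x j))) with hG
  have h2 : ∀ u w, M.c (Function.update u k w) * A (fun S => Plant D k p u (insert w S)) ≤
      M.c (Function.update u k w) * ∑ j, G j (Function.update u k w) := by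
    intro u w
    by_cases hc : M.c (Function.update u k w) = 0
    · rw [hc]; simp
    · apply mul_le_mul_of_nonneg_left _ (M.c_nonneg _)
      have hD := M.supp _ hc
      have h3 : A (fun S => Plant D k p u (insert w S)) ≤
          A (compF r (fun j S' => j = k ∨ p j (Function.update u k w) (S'.erase (u j)))) := by
        apply A_mono
        intro S hS
        exact ⟨w, Finset.mem_insert_self _ _, hD,
          compF_mono _ _ _ _ (Finset.subset_insert _ _) hS⟩
      refine h3.trans ((A_compF _ _).trans ?_)
      apply Finset.sum_le_sum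
      intro j _
      by_cases hj : j = k
      · have : (fun S' : Finset V => j = k ∨ p j (Function.update u k w) (S'.erase (u j))) =
            fun _ => True := by
          funext S'; simp [hj]
        rw [this, A_true, hG]
        simp [hj]
      · rw [hG]
        simp only [hj, if_false, false_or]
        rw [Function.update_of_ne hj]
  have h3 : ∑ u, ∑ w, M.c (Function.update u k w) * A (fun S => Plant D k p u (insert w S)) ≤
      (Fintype.card V : ℝ) * ∑ x, M.c x * ∑ j, G j x := by
    rw [← sum_update k (fun x => M.c x * ∑ j, G j x)]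
    exact Finset.sum_le_sum (fun u _ => Finset.sum_le_sum (fun w _ => h2 u w))
  have h4 : (Fintype.card V : ℝ) * ∑ x, M.c x * ∑ j, G j x =
      ∑ j, (Fintype.card V : ℝ) * ∑ x, M.c x * G j x := by
    rw [← Finset.mul_sum]
    congr 1
    simp only [Finset.mul_sum]
    exact Finset.sum_comm
  have h5 : ∀ j, (Fintype.card V : ℝ) * ∑ x, M.c x * G j x ≤
      (if j = k then 0 else ∑ u, M.wt j u * A (p j u)) := by
    intro j
    by_cases hj : j = k
    · simp only [hG, hj, if_true, mul_zero, Finset.sum_const_zero, le_refl]
    · rw [if_neg hj, ← sum_update j (fun x => M.c x * G j x)]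
      apply Finset.sum_le_sum
      intro u _
      have h6 := down_bound M j u (p j u) (hp j u)
      refine le_trans (le_of_eq ?_) h6
      refine Finset.sum_congr rfl (fun w _ => ?_)
      simp only [hG, hj, if_false]
      rw [hu j u w, Function.update_self]
  have h7 := Finset.sum_le_sum (fun j (_ : j ∈ (univ : Finset (Fin r))) => h5 j)
  linarith

theorem cost {W : Type*} (M : Wt D) (t : CT W r) : ∀ k : Fin r,
    ∑ u, M.wt k u * A (t.Emb D k u) ≤
      ((Fintype.card V : ℝ) + 1) * ∑ c, (t.cnt c k : ℝ) * M.mass c := by
  have hn : (0:ℝ) ≤ (Fintype.card V : ℝ) + 1 := by positivity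
  induction t with
  | node a =>
    intro k
    have : ∀ u : Fin r → V, A ((CT.node a : CT W r).Emb D k u) = 0 := fun u => A_true
    simp [this, CT.cnt]
  | graft v C B ihC ihB =>
    intro k
    have h1 := plantD M k (fun j => (C j).Emb D j) (fun i u S T => Emb_mono D (C i) i u S T)
      (fun i u w => by
        funext S
        exact propext (Emb_update D (C i) i u w S))
    have h2 : ∑ u, M.wt k u * A ((CT.graft v C B).Emb D k u) ≤
        ∑ u, M.wt k u * A (Plant D k (fun j => (C j).Emb D j) u) +
        ∑ u, M.wt k u * A (B.Emb D k u) := by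
      rw [← Finset.sum_add_distrib]
      apply Finset.sum_le_sum
      intro u _
      rw [← mul_add]
      exact mul_le_mul_of_nonneg_left (A_comp _ _) (M.wt_nonneg k u)
    have h3 : ∑ c, (((CT.graft v C B).cnt c k : ℕ) : ℝ) * M.mass c =
        ∑ j, (if j = k then 0 else ∑ c, ((C j).cnt c j : ℝ) * M.mass c) +
          ∑ c, (B.cnt c k : ℝ) * M.mass c + M.mass k := by
      have e1 : ∀ c, (((CT.graft v C B).cnt c k : ℕ) : ℝ) =
          (∑ j, if j = k then 0 else ((C j).cnt c j : ℝ)) + (B.cnt c k : ℝ) +
            (if c = k then 1 else 0) := by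
        intro c
        show (((∑ j, if j = k then 0 else (C j).cnt c j) + B.cnt c k +
          (if c = k then 1 else 0) : ℕ) : ℝ) = _
        push_cast
        congr 1
      simp only [e1, add_mul, Finset.sum_add_distrib]
      congr 1
      · congr 1
        simp only [Finset.sum_mul]
        rw [Finset.sum_comm]
        refine Finset.sum_congr rfl (fun j _ => ?_)
        by_cases hj : j = k
        · simp [hj]
        · simp [hj]
      · simp
    have h4 : ∑ j, (if j = k then 0 else ∑ u, M.wt j u * A ((C j).Emb D j u)) ≤
        ((Fintype.card V : ℝ) + 1) *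
          ∑ j, (if j = k then 0 else ∑ c, ((C j).cnt c j : ℝ) * M.mass c) := by
      rw [Finset.mul_sum]
      apply Finset.sum_le_sum
      intro j _
      by_cases hj : j = k
      · simp [hj]
      · simp only [hj, if_false]
        exact ihC j j
    have h5 := ihB k
    rw [h3, mul_add, mul_add]
    linarith

/-- If the tree embeds nowhere, the weight is small. -/
theorem weight_bound {W : Type*} (M : Wt D) (t : CT W r) (k : Fin r)
    (hno : ∀ u, ¬ t.Emb D k u univ) :
    (Fintype.card V : ℝ) * ∑ x, M.c x + M.mass k ≤ ∑ c, (t.cnt c k : ℝ) * M.mass c := by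
  have hall : ∀ u : Fin r → V, A (t.Emb D k u) = (Fintype.card V : ℝ) + 1 := by
    intro u
    apply A_false
    intro S hS
    exact hno u (Emb_mono D t k u S univ (Finset.subset_univ _) hS)
  have hc := cost M t k
  rw [Finset.sum_congr rfl (fun u _ => by rw [hall u]), ← Finset.sum_mul, mul_comm] at hc
  have hn : (0:ℝ) < (Fintype.card V : ℝ) + 1 := by positivity
  have h1 := le_of_mul_le_mul_left hc hn
  have h2 : ∑ u, M.wt k u = (Fintype.card V : ℝ) * ∑ x, M.c x + M.mass k := by
    unfold Wt.wt Wt.mass
    rw [Finset.sum_add_distrib, sum_update k M.c]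
  rw [h2] at h1
  exact h1

end Pool.Agent.H632.DK
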