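import Pool.Agent.H632.DK.Extract

/-!
# Directed Kalai: every coloured tight tree is a `Good` rooted tree
-/

set_option autoImplicit false

namespace Pool.Agent.H632.DK

open Finset

namespace CT

variable {W : Type*} {r : ℕ} [DecidableEq W]

/-- attach the edge `update (root t) k x` at the root facet -/
def addRoot (x : W) (k : Fin r) (t : CT W r) : CT W r :=
  graft x (fun _ => node (Function.update (root t) k x)) t

/-- `t'` is obtained from `t` by attaching the new edge `Y` with new vertex `x` of colour `c` -/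
def Ext (x : W) (c : Fin r) (Y : Fin r → W) (k : Fin r) (t t' : CT W r) : Prop :=
  t'.Good k ∧ t'.root = t.root ∧ (∀ b, t'.cnt b k = t.cnt b k + if b = c then 1 else 0) ∧
    t'.edges k = insert Y (t.edges k) ∧ t'.nv k = insert x (t.nv k)

theorem ext_iff_nv (x : W) (v : W) (C C' : Fin r → CT W r) (B B' : CT W r) (k : Fin r)
    (h : ∀ y, ((∃ j, j ≠ k ∧ y ∈ (C' j).nv j) ∨ y ∈ B'.nv k) ↔
      (y = x ∨ (∃ j, j ≠ k ∧ y ∈ (C j).nv j) ∨ y ∈ B.nv k)) :
    (graft v C' B').nv k = insert x ((graft v C B).nv k) := by
  ext y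
  rw [mem_nv_graft, Finset.mem_insert, mem_nv_graft, h y]
  exact or_left_comm

theorem ext_iff_edges (Y : Fin r → W) (v : W) (C C' : Fin r → CT W r) (B B' : CT W r) (k : Fin r)
    (hr : B'.root = B.root)
    (h : ∀ y, ((∃ j, j ≠ k ∧ y ∈ (C' j).edges j) ∨ y ∈ B'.edges k) ↔
      (y = Y ∨ (∃ j, j ≠ k ∧ y ∈ (C j).edges j) ∨ y ∈ B.edges k)) :
    (graft v C' B').edges k = insert Y ((graft v C B).edges k) := by
  ext y
  rw [mem_edges_graft, Finset.mem_insert, mem_edges_graft, h y, hr]
  exact or_left_comm

theorem addRoot_ext (x : W) (k : Fin r) (t : CT W r) (ht : t.Good k) (h1 : x ∉ rim t.root k)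
    (h2 : x ∉ t.nv k) : Ext x k (Function.update t.root k x) k t (t.addRoot x k) := by
  refine ⟨⟨fun _ _ => trivial, ht, fun _ _ => rfl, h1, h2, ?_, ?_, ?_, ?_⟩, rfl, ?_, ?_, ?_⟩
  · intro j _; simp [nv]
  · intro i j _ _ _; simp [nv]
  · intro j _; simp [nv]
  · intro j _; simp [nv]
  · intro b
    show (∑ j, if j = k then 0 else 0) + t.cnt b k + (if b = k then 1 else 0) = _
    simp
  · ext y
    rw [addRoot, mem_edges_graft, Finset.mem_insert]
    simp [edges]
  · ext y
    rw [addRoot, mem_nv_graft, Finset.mem_insert]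
    simp [nv]

theorem exists_update {α : Type*} (g : CT W r → Fin r → Finset α) (C : Fin r → CT W r)
    (i k : Fin r) (hik : i ≠ k) (c : CT W r) (y z : α) (h : z ∈ g c i ↔ (z = y ∨ z ∈ g (C i) i)) :
    (∃ j, j ≠ k ∧ z ∈ g (Function.update C i c j) j) ↔ (z = y ∨ ∃ j, j ≠ k ∧ z ∈ g (C j) j) := by
  constructor
  · rintro ⟨j, hjk, hj⟩
    by_cases hji : j = i
    · subst hji
      rw [Function.update_self, h] at hj
      rcases hj with hj | hj
      · exact Or.inl hj
      · exact Or.inr ⟨j, hjk, hj⟩
    · rw [Function.update_of_ne hji] at hj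
      exact Or.inr ⟨j, hjk, hj⟩
  · rintro (hz | ⟨j, hjk, hj⟩)
    · refine ⟨i, hik, ?_⟩
      rw [Function.update_self, h]
      exact Or.inl hz
    · by_cases hji : j = i
      · subst hji
        refine ⟨j, hjk, ?_⟩
        rw [Function.update_self, h]
        exact Or.inr hj
      · refine ⟨j, hjk, ?_⟩
        rw [Function.update_of_ne hji]; exact hj

theorem replaceC (x : W) (b : Fin r) (Y : Fin r → W) (v : W) (C : Fin r → CT W r) (B : CT W r)
    (k : Fin r) (hG : (graft v C B).Good k) (hx1 : x ∉ (graft v C B).nv k)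
    (hx2 : x ∉ rim B.root k)
    (i : Fin r) (hik : i ≠ k) (c : CT W r) (hc : Ext x b Y i (C i) c) :
    Ext x b Y k (graft v C B) (graft v (Function.update C i c) B) := by
  obtain ⟨c1, c2, c3, c4, c5⟩ := hc
  obtain ⟨hC, hB, hr, hv, hvB, hvC, hCC, hCB, hCr⟩ := hG
  have hxv : x ≠ v := fun h => hx1 ((mem_nv_graft v C B k x).2 (Or.inl h))
  have hxC : ∀ j, j ≠ k → x ∉ (C j).nv j := fun j hjk h =>
    hx1 ((mem_nv_graft v C B k x).2 (Or.inr (Or.inl ⟨j, hjk, h⟩)))
  have hxB : x ∉ B.nv k := fun h => hx1 ((mem_nv_graft v C B k x).2 (Or.inr (Or.inr h)))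
  refine ⟨⟨?_, hB, ?_, hv, hvB, ?_, ?_, ?_, ?_⟩, rfl, ?_, ?_, ?_⟩
  · intro j hjk
    by_cases hji : j = i
    · subst hji; rw [Function.update_self]; exact c1
    · rw [Function.update_of_ne hji]; exact hC j hjk
  · intro j hjk
    by_cases hji : j = i
    · subst hji; rw [Function.update_self, c2]; exact hr j hjk
    · rw [Function.update_of_ne hji]; exact hr j hjk
  · intro j hjk
    by_cases hji : j = i
    · subst hji; rw [Function.update_self, c5, Finset.mem_insert]
      rintro (h | h)
      · exact hxv h.symm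
      · exact hvC j hjk h
    · rw [Function.update_of_ne hji]; exact hvC j hjk
  · intro j l hjk hlk hjl
    by_cases hji : j = i
    · subst hji
      rw [Function.update_self, Function.update_of_ne (Ne.symm hjl), c5,
        Finset.disjoint_insert_left]
      exact ⟨hxC l hlk, hCC _ _ hjk hlk hjl⟩
    · by_cases hli : l = i
      · subst hli
        rw [Function.update_self, Function.update_of_ne hjl, c5,
          Finset.disjoint_insert_right]
        exact ⟨hxC j hjk, hCC _ _ hjk hlk hjl⟩
      · rw [Function.update_of_ne hji, Function.update_of_ne hli]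
        exact hCC _ _ hjk hlk hjl
  · intro j hjk
    by_cases hji : j = i
    · subst hji
      rw [Function.update_self, c5, Finset.disjoint_insert_left]
      exact ⟨hxB, hCB j hjk⟩
    · rw [Function.update_of_ne hji]; exact hCB j hjk
  · intro j hjk
    by_cases hji : j = i
    · subst hji
      rw [Function.update_self, c5, Finset.disjoint_insert_left]
      exact ⟨hx2, hCr j hjk⟩
    · rw [Function.update_of_ne hji]; exact hCr j hjk
  · intro a
    show (∑ j, if j = k then 0 else cnt a (Function.update C i c j) j) + cnt a B k +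
        (if a = k then 1 else 0) =
      (∑ j, if j = k then 0 else cnt a (C j) j) + cnt a B k + (if a = k then 1 else 0) +
        (if a = b then 1 else 0)
    have h1 : (∑ j, if j = k then 0 else cnt a (Function.update C i c j) j) =
        (∑ j, if j = k then 0 else cnt a (C j) j) + (if a = b then 1 else 0) := by
      rw [← Finset.add_sum_erase _ _ (Finset.mem_univ i),
        ← Finset.add_sum_erase (univ : Finset (Fin r))
          (fun j => if j = k then 0 else cnt a (C j) j) (Finset.mem_univ i)]
      have h2 : ∑ j ∈ univ.erase i, (if j = k then 0 else cnt a (Function.update C i c j) j) =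
          ∑ j ∈ univ.erase i, (if j = k then 0 else cnt a (C j) j) := by
        apply Finset.sum_congr rfl
        intro j hj
        rw [Function.update_of_ne (Finset.ne_of_mem_erase hj)]
      rw [h2]
      simp only [hik, if_false, Function.update_self, c3 a]
      omega
    rw [h1]; omega
  · apply ext_iff_edges Y v C _ B B k rfl
    intro y
    rw [exists_update (fun t j => t.edges j) C i k hik c Y y (by rw [c4, Finset.mem_insert])]
    exact or_assoc
  · apply ext_iff_nv x v C _ B B k
    intro y
    rw [exists_update (fun t j => t.nv j) C i k hik c x y (by rw [c5, Finset.mem_insert])]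
    exact or_assoc

theorem replaceB (x : W) (b : Fin r) (Y : Fin r → W) (v : W) (C : Fin r → CT W r) (B : CT W r)
    (k : Fin r) (hG : (graft v C B).Good k) (hx1 : x ∉ (graft v C B).nv k)
    (B' : CT W r) (hb : Ext x b Y k B B') :
    Ext x b Y k (graft v C B) (graft v C B') := by
  obtain ⟨c1, c2, c3, c4, c5⟩ := hb
  obtain ⟨hC, hB, hr, hv, hvB, hvC, hCC, hCB, hCr⟩ := hG
  have hxv : x ≠ v := fun h => hx1 ((mem_nv_graft v C B k x).2 (Or.inl h))
  have hxC : ∀ j, j ≠ k → x ∉ (C j).nv j := fun j hjk h =>
    hx1 ((mem_nv_graft v C B k x).2 (Or.inr (Or.inl ⟨j, hjk, h⟩)))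
  refine ⟨⟨hC, c1, ?_, ?_, ?_, hvC, hCC, ?_, ?_⟩, c2, ?_, ?_, ?_⟩
  · rw [c2]; exact hr
  · rw [c2]; exact hv
  · rw [c5, Finset.mem_insert]
    rintro (h | h)
    · exact hxv h.symm
    · exact hvB h
  · intro j hjk
    rw [c5, Finset.disjoint_insert_right]
    exact ⟨hxC j hjk, hCB j hjk⟩
  · rw [c2]; exact hCr
  · intro a
    show (∑ j, if j = k then 0 else cnt a (C j) j) + cnt a B' k + (if a = k then 1 else 0) =
      (∑ j, if j = k then 0 else cnt a (C j) j) + cnt a B k + (if a = k then 1 else 0) +
        (if a = b then 1 else 0)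
    rw [c3 a]; omega
  · apply ext_iff_edges Y v C C B B' k c2
    intro y
    rw [c4, Finset.mem_insert]
    exact or_left_comm
  · apply ext_iff_nv x v C C B B' k
    intro y
    rw [c5, Finset.mem_insert]
    exact or_left_comm

theorem exists_ext (x : W) (b : Fin r) (E : Fin r → W) (t : CT W r) : ∀ k, t.Good k →
    E ∈ t.edges k → x ∉ t.nv k → x ∉ rim t.root k →
    ∃ t', Ext x b (Function.update E b x) k t t' := by
  induction t with
  | node a => intro k _ hE; simp [edges] at hE
  | graft v C B ihC ihB =>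
    intro k ht hE hx1 hx2
    have ht0 := ht
    obtain ⟨hC, hB, hr, hv, hvB, hvC, hCC, hCB, hCr⟩ := ht
    have hxv : x ≠ v := fun h => hx1 ((mem_nv_graft v C B k x).2 (Or.inl h))
    have hxC : ∀ j, j ≠ k → x ∉ (C j).nv j := fun j hjk h =>
      hx1 ((mem_nv_graft v C B k x).2 (Or.inr (Or.inl ⟨j, hjk, h⟩)))
    have hxB : x ∉ B.nv k := fun h => hx1 ((mem_nv_graft v C B k x).2 (Or.inr (Or.inr h)))
    have hx2' : x ∉ rim B.root k := hx2
    have hxCr : ∀ j, j ≠ k → x ∉ rim (C j).root j := by
      intro j hjk hj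
      rw [hr j hjk] at hj
      obtain ⟨i, hij, hi⟩ := (mem_rim _ _ _).1 hj
      by_cases hik : i = k
      · rw [hik, Function.update_self] at hi
        exact hxv hi.symm
      · rw [Function.update_of_ne hik] at hi
        exact hx2' ((mem_rim _ _ _).2 ⟨i, hik, hi⟩)
    rcases (mem_edges_graft v C B k E).1 hE with h | ⟨i, hik, hi⟩ | h
    · by_cases hbk : b = k
      · refine ⟨(graft v C B).addRoot x k, ?_⟩
        have h1 := addRoot_ext x k (graft v C B) ht0 hx2 hx1
        have h2 : Function.update E b x = Function.update (graft v C B).root k x := by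
          rw [h, hbk, Function.update_idem]
          rfl
        rw [h2, hbk]
        exact h1
      · refine ⟨_, replaceC x b (Function.update E b x) v C B k ht0 hx1 hx2' b hbk
          ((C b).addRoot x b) ?_⟩
        have h2 : Function.update E b x = Function.update (C b).root b x := by
          rw [h, hr b hbk]
        rw [h2]
        exact addRoot_ext x b (C b) (hC b hbk) (hxCr b hbk) (hxC b hbk)
    · obtain ⟨c, hc⟩ := ihC i i (hC i hik) hi (hxC i hik) (hxCr i hik)
      exact ⟨_, replaceC x b (Function.update E b x) v C B k ht0 hx1 hx2' i hik c hc⟩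
    · obtain ⟨B', hb⟩ := ihB k hB h hxB hx2'
      exact ⟨_, replaceB x b (Function.update E b x) v C B k ht0 hx1 B' hb⟩

end CT

/-- `e 0, …, e (t - 1)` is an ordering of the edges of a coloured tight tree: `e 0` is injective,
and every later edge arises from an earlier one by replacing one vertex, without changing its
colour, by a vertex which is in no earlier edge. -/
def IsTree {W : Type*} (r t : ℕ) (e : ℕ → Fin r → W) : Prop :=
  Function.Injective (e 0) ∧ ∀ i, 0 < i → i < t → ∃ j, j < i ∧ ∃ (c : Fin r) (v : W),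
    (∀ l, l < i → ∀ a, e l a ≠ v) ∧ e i = Function.update (e j) c v

/-- the number of vertices of colour `c` -/
def colour {W : Type*} [DecidableEq W] {r : ℕ} (t : ℕ) (e : ℕ → Fin r → W) (c : Fin r) : ℕ :=
  ((Finset.range t).image (fun i => e i c)).card

theorem colour_succ {W : Type*} [DecidableEq W] {r t : ℕ} (e : ℕ → Fin r → W) (j : ℕ) (hj : j < t)
    (c : Fin r) (v : W) (hv : ∀ l, l < t → ∀ a, e l a ≠ v) (he : e t = Function.update (e j) c v)
    (b : Fin r) : colour (t + 1) e b = colour t e b + if b = c then 1 else 0 := by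
  unfold colour
  rw [Finset.range_add_one, Finset.image_insert, he]
  by_cases hbc : b = c
  · subst hbc
    rw [Function.update_self, Finset.card_insert_of_notMem, if_pos rfl]
    intro h
    obtain ⟨l, hl, hl2⟩ := Finset.mem_image.1 h
    exact hv l (Finset.mem_range.1 hl) b hl2
  · rw [Function.update_of_ne hbc, if_neg hbc, Finset.insert_eq_of_mem]
    · rfl
    · exact Finset.mem_image.2 ⟨j, Finset.mem_range.2 hj, rfl⟩

theorem exists_CT {W : Type*} [DecidableEq W] {r : ℕ} (k : Fin r) (e : ℕ → Fin r → W) (t : ℕ)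
    (h : IsTree r t e) : ∀ m, m + 1 ≤ t → ∃ T : CT W r, T.Good k ∧
      (∀ i j, i ≠ k → j ≠ k → T.root i = T.root j → i = j) ∧
      (∀ b, T.cnt b k + 1 = colour (m + 1) e b + if b = k then 1 else 0) ∧
      T.edges k = (Finset.range (m + 1)).image e ∧
      (∀ x, (x ∈ T.nv k ∨ x ∈ rim T.root k) ↔ ∃ i, i < m + 1 ∧ ∃ a, e i a = x) := by
  intro m
  induction m with
  | zero =>
    intro _
    have hinj := h.1
    have hext := CT.addRoot_ext (e 0 k) k (CT.node (e 0)) trivial
      (by
        show e 0 k ∉ rim (e 0) k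
        rw [mem_rim]
        rintro ⟨i, hik, hi⟩
        exact hik (hinj hi))
      (by simp [CT.nv])
    obtain ⟨c1, c2, c3, c4, c5⟩ := hext
    refine ⟨(CT.node (e 0)).addRoot (e 0 k) k, c1, ?_, ?_, ?_, ?_⟩
    · intro i j _ _ hij
      rw [c2] at hij
      exact hinj hij
    · intro b
      rw [c3 b]
      show 0 + (if b = k then 1 else 0) + 1 = colour 1 e b + _
      have : colour 1 e b = 1 := by simp [colour]
      rw [this]; omega
    · rw [c4]
      show insert (Function.update (e 0) k (e 0 k)) ∅ = _
      rw [Function.update_eq_self]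
      simp
    · intro x
      rw [c5, c2, mem_rim]
      show (x ∈ insert (e 0 k) (∅ : Finset W) ∨ _) ↔ _
      constructor
      · rintro (hx | ⟨i, _, hi⟩)
        · have hx' : x = e 0 k := by simpa using hx
          exact ⟨0, by omega, k, hx'.symm⟩
        · exact ⟨0, by omega, i, hi⟩
      · rintro ⟨i, hi, a, ha⟩
        have hi0 : i = 0 := by omega
        subst hi0
        by_cases hak : a = k
        · left; rw [← ha, hak]; simp
        · right; exact ⟨a, hak, ha⟩
  | succ m ih =>
    intro hm
    obtain ⟨T, t1, t2, t3, t4, t5⟩ := ih (by omega)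
    obtain ⟨j, hj, c, v, hv, hev⟩ := h.2 (m + 1) (by omega) (by omega)
    have hE : e j ∈ T.edges k := by
      rw [t4]; exact Finset.mem_image_of_mem _ (Finset.mem_range.2 hj)
    have hv1 : ¬ (v ∈ T.nv k ∨ v ∈ rim T.root k) := by
      rw [t5]
      rintro ⟨i, hi, a, ha⟩
      exact hv i hi a ha
    obtain ⟨T', c1, c2, c3, c4, c5⟩ := CT.exists_ext v c (e j) T k t1 hE
      (fun h => hv1 (Or.inl h)) (fun h => hv1 (Or.inr h))
    refine ⟨T', c1, ?_, ?_, ?_, ?_⟩
    · rw [c2]; exact t2
    · intro b
      have h1 := t3 b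
      have h2 := colour_succ e j hj c v hv hev b
      rw [c3 b, h2]
      omega
    · have h1 : (Finset.range (m + 1 + 1)).image e =
          insert (e (m + 1)) ((Finset.range (m + 1)).image e) := by
        rw [Finset.range_add_one (n := m + 1), Finset.image_insert]
      rw [c4, t4, ← hev, h1]
    · intro x
      rw [c5, c2, Finset.mem_insert, or_assoc, t5 x]
      constructor
      · rintro (hx | ⟨i, hi, a, ha⟩)
        · refine ⟨m + 1, by omega, c, ?_⟩
          rw [hev, Function.update_self, hx]
        · exact ⟨i, by omega, a, ha⟩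
      · rintro ⟨i, hi, a, ha⟩
        by_cases him : i = m + 1
        · rw [him, hev] at ha
          by_cases hac : a = c
          · left; rw [← ha, hac, Function.update_self]
          · rw [Function.update_of_ne hac] at ha
            right; exact ⟨j, hj, a, ha⟩
        · right; exact ⟨i, by omega, a, ha⟩

end Pool.Agent.H632.DK
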