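import Pool.Agent.H632.DK.Cost

/-!
# Directed Kalai: from the embedding event to an injective map
-/

set_option autoImplicit false

namespace Pool.Agent.H632.DK

open Finset ES903 H223R3.Kalai

/-- the vertices of the facet of type `k` of the tuple `a` -/
def rim {W : Type*} [DecidableEq W] {r : ℕ} (a : Fin r → W) (k : Fin r) : Finset W :=
  (univ.erase k).image a

theorem mem_rim {W : Type*} [DecidableEq W] {r : ℕ} (a : Fin r → W) (k : Fin r) (x : W) :
    x ∈ rim a k ↔ ∃ i, i ≠ k ∧ a i = x := by
  simp [rim]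

theorem update_injective {W : Type*} {r : ℕ} (a : Fin r → W) (k : Fin r)
    (ha : ∀ i j, i ≠ k → j ≠ k → a i = a j → i = j) (v : W) (hv : ∀ i, i ≠ k → a i ≠ v) :
    Function.Injective (Function.update a k v) := by
  intro i j hij
  by_cases hi : i = k
  · by_cases hj : j = k
    · rw [hi, hj]
    · rw [hi, Function.update_self, Function.update_of_ne hj] at hij
      exact absurd hij.symm (hv j hj)
  · by_cases hj : j = k
    · rw [hj, Function.update_self, Function.update_of_ne hi] at hij
      exact absurd hij (hv i hi)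
    · rw [Function.update_of_ne hi, Function.update_of_ne hj] at hij
      exact ha i j hi hj hij

namespace CT

variable {W : Type*} {r : ℕ} [DecidableEq W]

def Good : CT W r → Fin r → Prop
  | node _, _ => True
  | graft v C B, k => (∀ j, j ≠ k → Good (C j) j) ∧ Good B k ∧
      (∀ j, j ≠ k → root (C j) = Function.update (root B) k v) ∧
      v ∉ rim (root B) k ∧ v ∉ nv B k ∧ (∀ j, j ≠ k → v ∉ nv (C j) j) ∧
      (∀ i j, i ≠ k → j ≠ k → i ≠ j → Disjoint (nv (C i) i) (nv (C j) j)) ∧
      (∀ j, j ≠ k → Disjoint (nv (C j) j) (nv B k)) ∧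
      (∀ j, j ≠ k → Disjoint (nv (C j) j) (rim (root B) k))

theorem mem_nv_graft (v : W) (C : Fin r → CT W r) (B : CT W r) (k : Fin r) (x : W) :
    x ∈ (graft v C B).nv k ↔ x = v ∨ (∃ j, j ≠ k ∧ x ∈ (C j).nv j) ∨ x ∈ B.nv k := by
  show x ∈ insert v ((univ.biUnion fun j => if j = k then ∅ else nv (C j) j) ∪ nv B k) ↔ _
  rw [Finset.mem_insert, Finset.mem_union, Finset.mem_biUnion]
  constructor
  · rintro (h | ⟨j, _, hj⟩ | h)
    · exact Or.inl h
    · by_cases hjk : j = k
      · simp [hjk] at hj
      · rw [if_neg hjk] at hj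
        exact Or.inr (Or.inl ⟨j, hjk, hj⟩)
    · exact Or.inr (Or.inr h)
  · rintro (h | ⟨j, hjk, hj⟩ | h)
    · exact Or.inl h
    · exact Or.inr (Or.inl ⟨j, Finset.mem_univ _, by rw [if_neg hjk]; exact hj⟩)
    · exact Or.inr (Or.inr h)

theorem mem_edges_graft (v : W) (C : Fin r → CT W r) (B : CT W r) (k : Fin r) (e : Fin r → W) :
    e ∈ (graft v C B).edges k ↔ e = Function.update (root B) k v ∨
      (∃ j, j ≠ k ∧ e ∈ (C j).edges j) ∨ e ∈ B.edges k := by
  show e ∈ insert (Function.update (root B) k v)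
    ((univ.biUnion fun j => if j = k then ∅ else edges (C j) j) ∪ edges B k) ↔ _
  rw [Finset.mem_insert, Finset.mem_union, Finset.mem_biUnion]
  constructor
  · rintro (h | ⟨j, _, hj⟩ | h)
    · exact Or.inl h
    · by_cases hjk : j = k
      · simp [hjk] at hj
      · rw [if_neg hjk] at hj
        exact Or.inr (Or.inl ⟨j, hjk, hj⟩)
    · exact Or.inr (Or.inr h)
  · rintro (h | ⟨j, hjk, hj⟩ | h)
    · exact Or.inl h
    · exact Or.inr (Or.inl ⟨j, Finset.mem_univ _, by rw [if_neg hjk]; exact hj⟩)
    · exact Or.inr (Or.inr h)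

/-- the vertices of the edges are new vertices or in the root facet -/
theorem edges_sub (t : CT W r) : ∀ k, t.Good k → ∀ e ∈ t.edges k, ∀ i,
    e i ∈ t.nv k ∨ e i ∈ rim t.root k := by
  induction t with
  | node a => intro k _ e he; simp [edges] at he
  | graft v C B ihC ihB =>
    intro k h e he i
    obtain ⟨hC, hB, hr, hv, hvB, hvC, hCC, hCB, hCr⟩ := h
    rcases (mem_edges_graft v C B k e).1 he with h | ⟨j, hjk, hj⟩ | h
    · rw [h]
      by_cases hik : i = k
      · rw [hik, Function.update_self]
        exact Or.inl ((mem_nv_graft v C B k v).2 (Or.inl rfl))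
      · rw [Function.update_of_ne hik]
        exact Or.inr ((mem_rim _ _ _).2 ⟨i, hik, rfl⟩)
    · rcases ihC j j (hC j hjk) e hj i with h | h
      · exact Or.inl ((mem_nv_graft v C B k _).2 (Or.inr (Or.inl ⟨j, hjk, h⟩)))
      · rw [hr j hjk] at h
        obtain ⟨i', hi', h2⟩ := (mem_rim _ _ _).1 h
        by_cases hik : i' = k
        · rw [hik, Function.update_self] at h2
          exact Or.inl ((mem_nv_graft v C B k _).2 (Or.inl h2.symm))
        · rw [Function.update_of_ne hik] at h2
          exact Or.inr ((mem_rim _ _ _).2 ⟨i', hik, h2⟩)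
    · rcases ihB k hB e h i with h | h
      · exact Or.inl ((mem_nv_graft v C B k _).2 (Or.inr (Or.inr h)))
      · exact Or.inr h

theorem extract {V : Type*} [DecidableEq V] [Nonempty V] (D : Finset (Fin r → V))
    (hD : ∀ e ∈ D, Function.Injective e) (t : CT W r) : ∀ (k : Fin r), t.Good k →
    (∀ i j, i ≠ k → j ≠ k → t.root i = t.root j → i = j) →
    ∀ (u : Fin r → V) (S : Finset V), t.Emb D k u S →
    ∃ f : W → V, (∀ i, i ≠ k → f (t.root i) = u i) ∧ Set.InjOn f (t.nv k) ∧
      (∀ x ∈ t.nv k, f x ∈ S ∧ ∀ i, i ≠ k → f x ≠ u i) ∧ (∀ e ∈ t.edges k, f ∘ e ∈ D) := by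
  classical
  induction t with
  | node a =>
    intro k _ hri u S _
    refine ⟨fun x => if h : ∃ i, i ≠ k ∧ a i = x then u h.choose else Classical.arbitrary V,
      ?_, ?_, ?_, ?_⟩
    · intro i hi
      have hex : ∃ j, j ≠ k ∧ a j = a i := ⟨i, hi, rfl⟩
      have h1 : hex.choose = i := hri _ _ hex.choose_spec.1 hi hex.choose_spec.2
      show (if h : ∃ j, j ≠ k ∧ a j = a i then u h.choose else _) = u i
      rw [dif_pos hex, h1]
    · simp [nv]
    · simp [nv]
    · simp [edges]
  | graft v C B ihC ihB =>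
    intro k ht hri u S h
    obtain ⟨hC, hB, hr, hv, hvB, hvC, hCC, hCB, hCr⟩ := ht
    obtain ⟨S1, hS1, ⟨w, hw, hwD, hP⟩, hEB⟩ := h
    have hri' : ∀ i j, i ≠ k → j ≠ k → B.root i = B.root j → i = j := hri
    obtain ⟨P, p1, p2, p3⟩ := extractF _ _ _ hP
    have hvr : ∀ j, j ≠ k → B.root j ≠ v := fun j hjk hj =>
      hv ((mem_rim _ _ _).2 ⟨j, hjk, hj⟩)
    have hinj := hD _ hwD
    have hwu : ∀ j, j ≠ k → u j ≠ w := by
      intro j hjk hj
      apply hjk
      apply hinj
      rw [Function.update_of_ne hjk, Function.update_self, hj]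
    have hF : ∀ i, i ≠ k → ∃ f : W → V,
        (∀ j, j ≠ i → f ((C i).root j) = Function.update u k w j) ∧
        Set.InjOn f ((C i).nv i) ∧
        (∀ x ∈ (C i).nv i, f x ∈ (P i).erase (u i) ∧ ∀ j, j ≠ i → f x ≠ Function.update u k w j) ∧
        (∀ e ∈ (C i).edges i, f ∘ e ∈ D) := by
      intro i hik
      have hri2 : ∀ a b, a ≠ i → b ≠ i → (C i).root a = (C i).root b → a = b := by
        intro a b _ _ hab
        rw [hr i hik] at hab
        exact update_injective _ k hri' v hvr hab
      exact ihC i i (hC i hik) hri2 (Function.update u k w) ((P i).erase (u i))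
        ((p3 i).resolve_left hik)
    have hF' : ∀ i, ∃ f : W → V, i ≠ k →
        (∀ j, j ≠ i → f ((C i).root j) = Function.update u k w j) ∧
        Set.InjOn f ((C i).nv i) ∧
        (∀ x ∈ (C i).nv i, f x ∈ (P i).erase (u i) ∧ ∀ j, j ≠ i → f x ≠ Function.update u k w j) ∧
        (∀ e ∈ (C i).edges i, f ∘ e ∈ D) := by
      intro i
      by_cases hik : i = k
      · exact ⟨fun _ => Classical.arbitrary V, fun h => absurd hik h⟩
      · obtain ⟨f, hf⟩ := hF i hik
        exact ⟨f, fun _ => hf⟩
    choose F hFF using hF'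
    obtain ⟨g, hg1, hg2, hg3, hg4⟩ := ihB k hB hri' u (S \ S1) hEB
    have hFx : ∀ i, i ≠ k → ∀ x ∈ (C i).nv i,
        F i x ∈ P i ∧ (∀ j, j ≠ k → F i x ≠ u j) ∧ F i x ≠ w := by
      intro i hik x hx
      obtain ⟨h1, h2⟩ := (hFF i hik).2.2.1 x hx
      refine ⟨Finset.mem_of_mem_erase h1, ?_, ?_⟩
      · intro j hjk hj
        by_cases hji : j = i
        · subst hji
          exact Finset.ne_of_mem_erase h1 hj
        · apply h2 j hji
          rw [Function.update_of_ne hjk]; exact hj
      · intro hj
        apply h2 k (Ne.symm hik)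
        rw [Function.update_self]; exact hj
    obtain ⟨f, hf⟩ : ∃ f : W → V, f = fun x => if x = v then w else
        if hx : ∃ i, i ≠ k ∧ x ∈ (C i).nv i then F hx.choose x else g x := ⟨_, rfl⟩
    have fv : f v = w := by rw [hf]; simp
    have fC : ∀ i, i ≠ k → ∀ x ∈ (C i).nv i, f x = F i x := by
      intro i hik x hx
      have hxv : x ≠ v := fun h => hvC i hik (h ▸ hx)
      have hex : ∃ i, i ≠ k ∧ x ∈ (C i).nv i := ⟨i, hik, hx⟩
      have hii : hex.choose = i := by
        by_contra hne
        exact (Finset.disjoint_left.1 (hCC _ _ hex.choose_spec.1 hik hne)) hex.choose_spec.2 hx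
      rw [hf]
      simp only [hxv, if_false, dif_pos hex]
      rw [hii]
    have fB : ∀ x, x ≠ v → (¬ ∃ i, i ≠ k ∧ x ∈ (C i).nv i) → f x = g x := by
      intro x hxv hex
      rw [hf]
      simp only [hxv, if_false, dif_neg hex]
    have fBn : ∀ x ∈ B.nv k, f x = g x := by
      intro x hx
      apply fB
      · rintro rfl; exact hvB hx
      · rintro ⟨i, hik, hi⟩
        exact (Finset.disjoint_left.1 (hCB i hik)) hi hx
    have fBr : ∀ i, i ≠ k → f (B.root i) = u i := by
      intro i hik
      rw [fB _ (hvr i hik), hg1 i hik]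
      rintro ⟨j, hjk, hj⟩
      exact (Finset.disjoint_left.1 (hCr j hjk)) hj ((mem_rim _ _ _).2 ⟨i, hik, rfl⟩)
    have hCS : ∀ i, i ≠ k → ∀ x ∈ (C i).nv i, f x ∈ S1 := by
      intro i hik x hx
      rw [fC i hik x hx]
      exact p1 i (hFx i hik x hx).1
    have hBS : ∀ x ∈ B.nv k, f x ∉ S1 := by
      intro x hx
      rw [fBn x hx]
      exact (Finset.mem_sdiff.1 (hg3 x hx).1).2
    refine ⟨f, fBr, ?_, ?_, ?_⟩
    · intro x hx y hy hxy
      have hx' := (mem_nv_graft v C B k x).1 (by exact_mod_cast hx)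
      have hy' := (mem_nv_graft v C B k y).1 (by exact_mod_cast hy)
      clear hx hy
      rcases hx' with rfl | ⟨i, hik, hi⟩ | hx
      · rcases hy' with rfl | ⟨j, hjk, hj⟩ | hy
        · rfl
        · rw [fv, fC j hjk y hj] at hxy
          exact absurd hxy.symm (hFx j hjk y hj).2.2
        · rw [fv] at hxy
          exact absurd (hxy ▸ hw) (hBS y hy)
      · rcases hy' with rfl | ⟨j, hjk, hj⟩ | hy
        · rw [fv, fC i hik x hi] at hxy
          exact absurd hxy (hFx i hik x hi).2.2
        · by_cases hij : i = j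
          · subst hij
            rw [fC i hik x hi, fC i hik y hj] at hxy
            exact (hFF i hik).2.1 (by exact_mod_cast hi) (by exact_mod_cast hj) hxy
          · have h1 := (hFx i hik x hi).1
            have h2 := (hFx j hjk y hj).1
            rw [← fC i hik x hi, hxy] at h1
            rw [← fC j hjk y hj] at h2
            exact absurd h2 ((Finset.disjoint_left.1 (p2 i j hij)) h1)
        · exact absurd (hxy ▸ hCS i hik x hi) (hBS y hy)
      · rcases hy' with rfl | ⟨j, hjk, hj⟩ | hy
        · rw [fv] at hxy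
          exact absurd (hxy ▸ hw) (hBS x hx)
        · exact absurd (hxy ▸ hCS j hjk y hj) (hBS x hx)
        · rw [fBn x hx, fBn y hy] at hxy
          exact hg2 (by exact_mod_cast hx) (by exact_mod_cast hy) hxy
    · intro x hx
      rcases (mem_nv_graft v C B k x).1 hx with rfl | ⟨i, hik, hi⟩ | hx
      · rw [fv]
        exact ⟨hS1 hw, fun j hjk h => hwu j hjk h.symm⟩
      · refine ⟨hS1 (hCS i hik x hi), ?_⟩
        rw [fC i hik x hi]
        exact (hFx i hik x hi).2.1
      · rw [fBn x hx]
        exact ⟨(Finset.mem_sdiff.1 (hg3 x hx).1).1, (hg3 x hx).2⟩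
    · intro e he
      rcases (mem_edges_graft v C B k e).1 he with h | ⟨i, hik, hi⟩ | h
      · have : f ∘ e = Function.update u k w := by
          funext j
          rw [h, Function.comp_apply]
          by_cases hjk : j = k
          · rw [hjk, Function.update_self, Function.update_self, fv]
          · rw [Function.update_of_ne hjk, Function.update_of_ne hjk, fBr j hjk]
        rw [this]; exact hwD
      · have h1 := (hFF i hik).2.2.2 e hi
        have h2 : f ∘ e = F i ∘ e := by
          funext j
          rw [Function.comp_apply, Function.comp_apply]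
          rcases edges_sub (C i) i (hC i hik) e hi j with h3 | h3
          · exact fC i hik _ h3
          · obtain ⟨l, hl, hl2⟩ := (mem_rim _ _ _).1 h3
            rw [← hl2, (hFF i hik).1 l hl, hr i hik]
            by_cases hlk : l = k
            · rw [hlk, Function.update_self, Function.update_self, fv]
            · rw [Function.update_of_ne hlk, Function.update_of_ne hlk, fBr l hlk]
        rw [h2]; exact h1
      · have h1 := hg4 e h
        have h2 : f ∘ e = g ∘ e := by
          funext j
          rw [Function.comp_apply, Function.comp_apply]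
          rcases edges_sub B k hB e h j with h3 | h3
          · exact fBn _ h3
          · obtain ⟨l, hl, hl2⟩ := (mem_rim _ _ _).1 h3
            rw [← hl2, fBr l hl, hg1 l hl]
        rw [h2]; exact h1

end CT

end Pool.Agent.H632.DK
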