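import Pool.Agent.H632.DK.Exist

/-!
# Directed Kalai: the weighted inequality
-/

set_option autoImplicit false

namespace Pool.Agent.H632.DK

open Finset ES903 H223R3.Kalai

/-- `f` is a copy of the tree `e 0, …, e (t - 1)` in the family `D` of tuples -/
def Copy {V W : Type*} {r : ℕ} (D : (Fin r → V) → Prop) (t : ℕ) (e : ℕ → Fin r → W)
    (f : W → V) : Prop :=
  Set.InjOn f {x | ∃ i, i < t ∧ ∃ a, e i a = x} ∧ ∀ i, i < t → D (f ∘ e i)

theorem copy_of_emb {V W : Type*} [DecidableEq V] [DecidableEq W] [Fintype V] [Nonempty V] {r : ℕ}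
    (D : Finset (Fin r → V)) (hD : ∀ x ∈ D, Function.Injective x) (k : Fin r)
    (e : ℕ → Fin r → W) (t : ℕ) (ht : 1 ≤ t) (T : CT W r) (hT : T.Good k)
    (hri : ∀ i j, i ≠ k → j ≠ k → T.root i = T.root j → i = j)
    (hed : T.edges k = (Finset.range t).image e)
    (hv : ∀ x, (x ∈ T.nv k ∨ x ∈ rim T.root k) ↔ ∃ i, i < t ∧ ∃ a, e i a = x)
    (u : Fin r → V) (hu : T.Emb D k u univ) : ∃ f : W → V, Copy (· ∈ D) t e f := by
  obtain ⟨f, f1, f2, f3, f4⟩ := CT.extract D hD T k hT hri u univ hu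
  have hroot : ∃ v, Function.update T.root k v ∈ T.edges k := by
    cases T with
    | node a =>
      exfalso
      have : e 0 ∈ (Finset.range t).image e :=
        Finset.mem_image_of_mem _ (Finset.mem_range.2 (by omega))
      rw [← hed] at this
      simp [CT.edges] at this
    | graft v C B =>
      exact ⟨v, (CT.mem_edges_graft v C B k _).2 (Or.inl rfl)⟩
  obtain ⟨v, hv2⟩ := hroot
  have hinj := hD _ (f4 _ hv2)
  have hui : ∀ i j, i ≠ k → j ≠ k → u i = u j → i = j := by
    intro i j hi hj hij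
    apply hinj
    rw [Function.comp_apply, Function.comp_apply, Function.update_of_ne hi,
      Function.update_of_ne hj, f1 i hi, f1 j hj, hij]
  refine ⟨f, ?_, ?_⟩
  · intro x hx y hy hxy
    rcases (hv x).2 hx with hx | hx
    · rcases (hv y).2 hy with hy | hy
      · exact f2 (by exact_mod_cast hx) (by exact_mod_cast hy) hxy
      · obtain ⟨j, hj, hj2⟩ := (mem_rim _ _ _).1 hy
        rw [← hj2, f1 j hj] at hxy
        exact absurd hxy ((f3 x hx).2 j hj)
    · obtain ⟨i, hi, hi2⟩ := (mem_rim _ _ _).1 hx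
      rcases (hv y).2 hy with hy | hy
      · rw [← hi2, f1 i hi] at hxy
        exact absurd hxy.symm ((f3 y hy).2 i hi)
      · obtain ⟨j, hj, hj2⟩ := (mem_rim _ _ _).1 hy
        rw [← hi2, ← hj2, f1 i hi, f1 j hj] at hxy
        rw [← hi2, ← hj2, hui i j hi hj hxy]
  · intro i hi
    apply f4
    rw [hed]
    exact Finset.mem_image_of_mem _ (Finset.mem_range.2 hi)

/-- summing a function of the coordinates different from `k` over all tuples -/
theorem sum_facet {V : Type*} [Fintype V] {r : ℕ} (k : Fin r)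
    (m : ({i : Fin r // i ≠ k} → V) → ℝ) :
    ∑ x : Fin r → V, m (fun i => x i) = (Fintype.card V : ℝ) * ∑ y, m y := by
  classical
  have h1 : ∑ x : Fin r → V, m (fun i => x i) =
      ∑ z : V × ({i : Fin r // i ≠ k} → V), m z.2 := by
    apply Fintype.sum_equiv (Equiv.funSplitAt k V)
    intro x
    rfl
  rw [h1, Fintype.sum_prod_type]
  show ∑ _x : V, ∑ y, m y = _
  rw [Finset.sum_const, nsmul_eq_mul, Finset.card_univ]

theorem colour_pos {W : Type*} [DecidableEq W] {r t : ℕ} (ht : 1 ≤ t) (e : ℕ → Fin r → W)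
    (k : Fin r) : 1 ≤ colour t e k := by
  unfold colour
  rw [Nat.one_le_iff_ne_zero, ← Nat.pos_iff_ne_zero, Finset.card_pos]
  exact ⟨e 0 k, Finset.mem_image.2 ⟨0, Finset.mem_range.2 (by omega), rfl⟩⟩

/-- the weighted inequality -/
theorem weighted {V W : Type*} [DecidableEq W] [Fintype V] [Nonempty V] {r t : ℕ} (hr : 1 ≤ r) (ht : 1 ≤ t)
    (e : ℕ → Fin r → W) (he : IsTree r t e) (c : (Fin r → V) → ℝ)
    (m : ∀ k : Fin r, ({i : Fin r // i ≠ k} → V) → ℝ) (hc : ∀ x, 0 ≤ c x)
    (hi : ∀ x, c x ≠ 0 → Function.Injective x) (hm : ∀ k x, c x ≤ m k (fun i => x i))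
    (hno : ¬ ∃ f : W → V, Copy (fun x => c x ≠ 0) t e f) :
    ∑ x, c x ≤ ∑ k, ((colour t e k : ℝ) - 1) * ∑ y, m k y := by
  classical
  set k : Fin r := ⟨0, by omega⟩
  set D : Finset (Fin r → V) := univ.filter (fun x => c x ≠ 0) with hDdef
  have hD : ∀ x ∈ D, Function.Injective x := fun x hx => hi x (by simpa [hDdef] using hx)
  let M : Wt D :=
    { c := c
      m := fun k x => m k (fun i => x i)
      c_nonneg := hc
      supp := fun x hx => by simpa [hDdef] using hx
      m_update := by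
        intro k x w
        show m k (fun i => Function.update x k w i) = m k (fun i => x i)
        congr 1
        funext i
        exact Function.update_of_ne i.2 _ _
      c_le := hm }
  obtain ⟨T, t1, t2, t3, t4, t5⟩ := exists_CT k e t he (t - 1) (by omega)
  have ht' : t - 1 + 1 = t := by omega
  rw [ht'] at t3 t4 t5
  have hno' : ∀ u, ¬ T.Emb D k u univ := by
    intro u hu
    obtain ⟨f, hf1, hf2⟩ := copy_of_emb D hD k e t ht T t1 t2 t4 t5 u hu
    exact hno ⟨f, hf1, fun i hi => by simpa [hDdef] using hf2 i hi⟩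
  have h1 := weight_bound M T k hno'
  have h2 : ∀ b, M.mass b = (Fintype.card V : ℝ) * ∑ y, m b y := fun b => sum_facet b (m b)
  have h3 : ∑ b, (T.cnt b k : ℝ) * M.mass b =
      ∑ b, ((colour t e b : ℝ) - 1) * M.mass b + M.mass k := by
    have h4 : ∀ b, (T.cnt b k : ℝ) = ((colour t e b : ℝ) - 1) + if b = k then 1 else 0 := by
      intro b
      have := t3 b
      have h5 : ((T.cnt b k + 1 : ℕ) : ℝ) = ((colour t e b + if b = k then 1 else 0 : ℕ) : ℝ) := by
        rw [this]
      push_cast at h5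
      linarith
    simp only [h4, add_mul, Finset.sum_add_distrib]
    simp
  rw [h3] at h1
  have h6 : (Fintype.card V : ℝ) * ∑ x, c x ≤
      (Fintype.card V : ℝ) * ∑ b, ((colour t e b : ℝ) - 1) * ∑ y, m b y := by
    have h7 : (Fintype.card V : ℝ) * ∑ b, ((colour t e b : ℝ) - 1) * ∑ y, m b y =
        ∑ b, ((colour t e b : ℝ) - 1) * M.mass b := by
      rw [Finset.mul_sum]
      refine Finset.sum_congr rfl (fun b _ => ?_)
      rw [h2 b]; ring
    rw [h7]
    have h8 : (Fintype.card V : ℝ) * ∑ x, M.c x + M.mass k ≤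
      ∑ b, ((colour t e b : ℝ) - 1) * M.mass b + M.mass k := h1
    exact le_of_add_le_add_right h8
  have hpos : (0:ℝ) < Fintype.card V := by exact_mod_cast Fintype.card_pos
  exact le_of_mul_le_mul_left h6 hpos

end Pool.Agent.H632.DK
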